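import Pool.Agent.V11288.LZ.Fin

/-!
# The leading terms of Artin L-series at `s = 0` as limits of explicit sums over primes

Let `L/K` be a Galois extension of number fields with group `G`, `S` a finite set of finite primes of `K`
containing those which ramify in `L` (Stark's conjecture for a character does not depend on `S`), `χ` the
character of a complex representation `ρ` of `G` and `L_S(s, χ)` the Artin `L`-series without the Euler factors
at `S`.  By Brauer it has a meromorphic continuation; only the meromorphic continuation to the points of the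
real interval `[0, 1]` is used (hypothesis `IsLSeries`).  Stark's conjecture is about

`A_S(χ, φ) = R_S(χ, φ) / L_S^*(0, χ)`,  `A_S(χ, φ)^σ = A_S(χ^σ, φ)` for `σ ∈ Aut(ℂ)`,

where `L_S^*(0, χ)` is the leading coefficient at `s = 0`, a point far away from the half plane `Re s > 1` of
the Euler product.  We show that nevertheless `L_S^*(0, χ)` is the limit of explicit sums over the primes.
Let `γ > π/2` be any real number, and for `X > 1`

`W_χ(X) = ∑_{v ∉ S} ∑_{k ≥ 1} χ(Frob_v^k)/k · e^{iγu} / Γ(1 + u)`,  `u = k log Nv / log X`.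

(Without the weights `e^{iγu}/Γ(1+u)`, which tend to `1` for `X → ∞`, this would be `log L_S(0, χ)`, a series
which diverges.)  Let `Λ_γ = ∫_0^∞ (e^{-t} - e^{iγt}/Γ(1+t)) dt/t`.  Then, for EVERY `χ`:

1. `W_χ(X)` converges absolutely, and if `r` is the order and `e^c = L_S^*(0, χ)` (for a suitable choice of the
   logarithm `c`), `W_χ(X) = c - r (log log X - Λ_γ) + O(1/log X)` as `X → ∞`.

2. For every integer `r` and every complex number `B ≠ 0`: `L_S(s, χ)/s^r → B` for `s → 0` if and only if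
   `(log X)^r exp W_χ(X) → e^{rΛ_γ} B` for `X → ∞`.

3. (Stark's conjecture as a statement on primes.)  Let `χ'` be a second character (`χ' = χ^σ`), `σ ∈ Aut(ℂ)`,
   `R`, `R'` nonzero numbers (`R = R_S(χ, φ)`, `R' = R_S(χ^σ, φ)`), `r` an integer (the common order at `0`).
   Then: `L_S(s, χ)` and `L_S(s, χ')` have the order `r` at `0` and `(R/L_S^*(0, χ))^σ = R'/L_S^*(0, χ')` if and
   only if for some `A ≠ 0`, as `X → ∞`,

   `(log X)^r exp W_χ(X) → e^{rΛ_γ} R/A` and `(log X)^r exp W_{χ'}(X) → e^{rΛ_γ} R'/A^σ`.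

No hypothesis on the zeros and poles of `L_S(s, χ)` is made, in particular not on real zeros between `0` and `1`:
this is the effect of the rotation `e^{iγu}`, `γ > π/2`.

Proof.  The law for rotated Mittag-Leffler sums of Dirichlet series with real coefficients and a central point
at distance `1/2` from the half plane of convergence is `Pool.Agent.V11290.UL` (`MP_dfae13_nt.NumericalForm`,
building on helpers of an earlier round).  Here it is extended to complex coefficients and all real points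
(`Pool.Agent.V11288.LZ`): the quotient of `L(s)` by its reflection in the real axis is analytic and without
zeros at all real points, hence has a logarithm near the real axis; splitting it off reduces the complex case
to two real ones.
-/

set_option autoImplicit false

namespace Pool.Agent.Results.MP_46b841_nt.LeadingTermsByPrimes

open Filter Topology Set NumberField IsDedekindDomain

variable {K L : Type} [Field K] [NumberField K] [Field L] [NumberField L] [Algebra K L]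

/-- The norm of `v`. -/
noncomputable def nrm (v : HeightOneSpectrum (𝓞 K)) : ℕ := Ideal.absNorm v.asIdeal

/-- `g` is the Frobenius automorphism of a prime `Q` of `L` above `v`: `g(x) ≡ x^(N v)` modulo `Q`. -/
def IsFrobenius (v : HeightOneSpectrum (𝓞 K)) (g : L ≃ₐ[K] L) : Prop :=
  ∃ Q : Ideal (𝓞 L), Q.IsPrime ∧ Q.comap (algebraMap (𝓞 K) (𝓞 L)) = v.asIdeal ∧
    ∀ x y : 𝓞 L, (y : L) = g (x : L) → y - x ^ nrm v ∈ Q

/-- The primes outside `S` are unramified in `L` and `frob v` is a Frobenius automorphism for `v ∉ S`. -/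
structure IsData (S : Finset (HeightOneSpectrum (𝓞 K)))
    (frob : HeightOneSpectrum (𝓞 K) → (L ≃ₐ[K] L)) : Prop where
  unramified : ∀ v ∉ S, Squarefree (v.asIdeal.map (algebraMap (𝓞 K) (𝓞 L)))
  frobenius : ∀ v ∉ S, IsFrobenius v (frob v)

/-- `Λ(s) = L_S(s, χ)`: it is the Euler product of the factors `det(1 - Nv^{-s} ρ(Frob_v))⁻¹`, `v ∉ S`, for
`Re s > 1`, and is meromorphic at the points of the real interval `[0, 1]`. -/
structure IsLSeries {n : ℕ} (S : Finset (HeightOneSpectrum (𝓞 K)))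
    (frob : HeightOneSpectrum (𝓞 K) → (L ≃ₐ[K] L))
    (ρ : (L ≃ₐ[K] L) →* Matrix (Fin n) (Fin n) ℂ) (Λ : ℂ → ℂ) : Prop where
  mero : ∀ x ∈ Icc (0 : ℝ) 1, MeromorphicAt Λ (x : ℂ)
  prod : ∀ s : ℂ, 1 < s.re → Λ s =
    ∏' v : {v : HeightOneSpectrum (𝓞 K) // v ∉ S}, ((1 - (nrm v.1 : ℂ) ^ (-s) • ρ (frob v.1)).det)⁻¹

/-- The weight `e^{iγu} / Γ(1 + u)`. -/
noncomputable def weight (γ u : ℝ) : ℂ :=
  Complex.exp ((γ * u : ℝ) * Complex.I) / (Real.Gamma (1 + u) : ℂ)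

/-- The term of `W_χ(X)` at `(v, k)`: `χ(Frob_v^k)/k` times the weight at `u = k log Nv / log X`. -/
noncomputable def term {n : ℕ} (frob : HeightOneSpectrum (𝓞 K) → (L ≃ₐ[K] L))
    (ρ : (L ≃ₐ[K] L) →* Matrix (Fin n) (Fin n) ℂ) (γ X : ℝ) (v : HeightOneSpectrum (𝓞 K)) (k : ℕ) : ℂ :=
  (ρ (frob v ^ k)).trace / k * weight γ (k * Real.log (nrm v) / Real.log X)

/-- `W_χ(X)`, the sum over `v ∉ S` and `k ≥ 1` (here `k = x.2 + 1`). -/
noncomputable def W {n : ℕ} (S : Finset (HeightOneSpectrum (𝓞 K)))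
    (frob : HeightOneSpectrum (𝓞 K) → (L ≃ₐ[K] L))
    (ρ : (L ≃ₐ[K] L) →* Matrix (Fin n) (Fin n) ℂ) (γ X : ℝ) : ℂ :=
  ∑' x : {v : HeightOneSpectrum (𝓞 K) // v ∉ S} × ℕ, term frob ρ γ X x.1.1 (x.2 + 1)

/-- `Λ_γ = ∫_0^∞ (e^{-t} - e^{iγt} / Γ(1 + t)) dt / t`. -/
noncomputable def Lam (γ : ℝ) : ℂ := ∫ t in Ioi (0 : ℝ),
  (Complex.exp (-(t : ℂ)) - Complex.exp ((γ * t : ℝ) * Complex.I) * ((Real.Gamma (1 + t))⁻¹ : ℝ)) / t

/-- `B ≠ 0` is the leading coefficient of `Λ` at `0`, where the order is `r`: `Λ(s)/s^r → B`. -/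
def LeadingAt (Λ : ℂ → ℂ) (r : ℤ) (B : ℂ) : Prop :=
  B ≠ 0 ∧ Tendsto (fun s : ℂ => Λ s / s ^ r) (𝓝[≠] 0) (𝓝 B)

/-- `(log X)^r exp W_χ(X) → C` for `X → ∞`. -/
def HasLimit {n : ℕ} (S : Finset (HeightOneSpectrum (𝓞 K)))
    (frob : HeightOneSpectrum (𝓞 K) → (L ≃ₐ[K] L))
    (ρ : (L ≃ₐ[K] L) →* Matrix (Fin n) (Fin n) ℂ) (γ : ℝ) (r : ℤ) (C : ℂ) : Prop :=
  Tendsto (fun X : ℝ => (Real.log X : ℂ) ^ r * Complex.exp (W S frob ρ γ X)) atTop (𝓝 C)

open Pool.Agent.V11288.LZ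

variable {n : ℕ} {S : Finset (HeightOneSpectrum (𝓞 K))}
  {frob : HeightOneSpectrum (𝓞 K) → (L ≃ₐ[K] L)} {ρ : (L ≃ₐ[K] L) →* Matrix (Fin n) (Fin n) ℂ}
  {Λ : ℂ → ℂ} {γ : ℝ}

theorem eul : Eul 1 0 (fun v : {v : HeightOneSpectrum (𝓞 K) | v ∉ S} =>
    (Ideal.absNorm v.1.asIdeal : ℝ)) (fun v => ρ (frob v.1)) := by
  refine eul_nf fun v z hz => ?_
  rw [Real.rpow_zero]
  obtain ⟨j, -, hj⟩ := Multiset.mem_map.1
    (show z ∈ Multiset.map (Pool.Agent.V11288.QU.App.enum (ρ (frob v.1))) Finset.univ.val by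
      rw [Pool.Agent.V11288.QU.App.enum_spec]
      exact hz)
  rw [← hj, Pool.Agent.V11288.QU.App.enum_norm]

theorem term_eq (X : ℝ) (x : {v : HeightOneSpectrum (𝓞 K) | v ∉ S} × ℕ) :
    tm (fun v : {v : HeightOneSpectrum (𝓞 K) | v ∉ S} => (Ideal.absNorm v.1.asIdeal : ℝ))
      (fun v => ρ (frob v.1)) 0 γ X x = term frob ρ γ X x.1.1 (x.2 + 1) := by
  unfold tm term weight wt nrm
  rw [Real.rpow_zero, map_pow, Complex.ofReal_one, one_pow, mul_one]

theorem W_eq (X : ℝ) :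
    tot (fun v : {v : HeightOneSpectrum (𝓞 K) | v ∉ S} => (Ideal.absNorm v.1.asIdeal : ℝ))
      (fun v => ρ (frob v.1)) 0 γ X = W S frob ρ γ X :=
  tsum_congr fun x => term_eq X x

theorem main (hΛ : IsLSeries S frob ρ Λ) (hγ : Real.pi / 2 < γ) :
    (∀ X : ℝ, 1 < X → Summable fun x : {v : HeightOneSpectrum (𝓞 K) // v ∉ S} × ℕ =>
      ‖term frob ρ γ X x.1.1 (x.2 + 1)‖) ∧
    (∃ (r : ℤ) (c : ℂ), meromorphicOrderAt Λ 0 = r ∧ LeadingAt Λ r (Complex.exp c) ∧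
      (fun X : ℝ => W S frob ρ γ X - (c - r * (Real.log (Real.log X) - Lam γ))) =O[atTop]
        (fun X : ℝ => 1 / Real.log X)) ∧
    ∀ (r : ℤ) (B : ℂ), B ≠ 0 →
      (LeadingAt Λ r B ↔ HasLimit S frob ρ γ r (Complex.exp (r * Lam γ) * B)) := by
  obtain ⟨h1, ⟨m, r₀, h2, h3, h4⟩, h5, -⟩ := (eul (S := S) (frob := frob) (ρ := ρ)).final
    (L := Λ) (s₀ := 0) (by norm_num) (fun x hx => hΛ.mero x ⟨hx.1, by linarith [hx.2]⟩)
    (fun s hs => by
      rw [hΛ.prod s (by linarith)]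
      rfl) hγ
  rw [Complex.ofReal_zero] at h2 h3 h5
  refine ⟨fun X hX => ?_, ⟨m, r₀, h2, ⟨Complex.exp_ne_zero _, ?_⟩, ?_⟩, fun r B hB => ?_⟩
  · refine (h1 X hX).congr fun x => ?_
    rw [term_eq]
  · simpa only [sub_zero] using h3
  · refine h4.congr_left fun X => ?_
    rw [W_eq]
    show _ = W S frob ρ γ X - (r₀ - m * (Real.log (Real.log X) - Pool.Agent.W187.UR.Lam γ))
    ring
  · have h6 := h5 r B hB
    simp only [sub_zero, W_eq] at h6
    unfold LeadingAt HasLimit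
    constructor
    · exact fun h => h6.1 h.2
    · exact fun h => ⟨hB, h6.2 h⟩

/-- **The leading term of `L_S(s, χ)` at `s = 0` as a limit of sums over primes.** -/
theorem result (S : Finset (HeightOneSpectrum (𝓞 K))) (frob : HeightOneSpectrum (𝓞 K) → (L ≃ₐ[K] L))
    (_ : IsData S frob) {n : ℕ} (ρ : (L ≃ₐ[K] L) →* Matrix (Fin n) (Fin n) ℂ) (Λ : ℂ → ℂ)
    (hΛ : IsLSeries S frob ρ Λ) (γ : ℝ) (hγ : Real.pi / 2 < γ) :
    (∀ X : ℝ, 1 < X → Summable fun x : {v : HeightOneSpectrum (𝓞 K) // v ∉ S} × ℕ =>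
      ‖term frob ρ γ X x.1.1 (x.2 + 1)‖) ∧
    (∃ (r : ℤ) (c : ℂ), meromorphicOrderAt Λ 0 = r ∧ LeadingAt Λ r (Complex.exp c) ∧
      (fun X : ℝ => W S frob ρ γ X - (c - r * (Real.log (Real.log X) - Lam γ))) =O[atTop]
        (fun X : ℝ => 1 / Real.log X)) ∧
    (∀ (r : ℤ) (B : ℂ), B ≠ 0 →
      (LeadingAt Λ r B ↔ HasLimit S frob ρ γ r (Complex.exp (r * Lam γ) * B))) ∧
    ∀ {n' : ℕ} (ρ' : (L ≃ₐ[K] L) →* Matrix (Fin n') (Fin n') ℂ) (Λ' : ℂ → ℂ),
      IsLSeries S frob ρ' Λ' → ∀ (σ : ℂ ≃+* ℂ) (r : ℤ) (R R' : ℂ), R ≠ 0 → R' ≠ 0 →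
      ((∃ B B' : ℂ, LeadingAt Λ r B ∧ LeadingAt Λ' r B' ∧ σ (R / B) = R' / B') ↔
        ∃ A : ℂ, A ≠ 0 ∧ HasLimit S frob ρ γ r (Complex.exp (r * Lam γ) * (R / A)) ∧
          HasLimit S frob ρ' γ r (Complex.exp (r * Lam γ) * (R' / σ A))) := by
  obtain ⟨h1, h2, h3⟩ := main hΛ hγ
  refine ⟨h1, h2, h3, fun ρ' Λ' hΛ' σ r R R' hR hR' => ?_⟩
  obtain ⟨-, -, h3'⟩ := main hΛ' hγ
  constructor
  · rintro ⟨B, B', hB, hB', h⟩
    have hA : R / B ≠ 0 := div_ne_zero hR hB.1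
    refine ⟨R / B, hA, ?_, ?_⟩
    · rw [div_div_cancel₀ hR]
      exact (h3 r B hB.1).1 hB
    · rw [h, div_div_cancel₀ hR']
      exact (h3' r B' hB'.1).1 hB'
  · rintro ⟨A, hA, hl, hl'⟩
    have hσ : σ A ≠ 0 := (map_ne_zero_iff σ σ.injective).2 hA
    refine ⟨R / A, R' / σ A, (h3 r _ (div_ne_zero hR hA)).2 hl,
      (h3' r _ (div_ne_zero hR' hσ)).2 hl', ?_⟩
    rw [div_div_cancel₀ hR, div_div_cancel₀ hR']

end Pool.Agent.Results.MP_46b841_nt.LeadingTermsByPrimes
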